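import Pool.Agent.V8H94.VT.Dom
import Pool.Agent.V8H94.VT.Gen
import Pool.Agent.V8H94.CT.WN

/-!
# Pure numbers, and classes dominated by abelian varieties from Tate classes
-/

set_option autoImplicit false

namespace Pool.Agent.V8H77.VT

open Module Polynomial TensorProduct
open Pool.Agent.V8H94.CT Pool.Agent.V8H94.TC Pool.Agent.V8H94.VT

section

variable {p : ℕ} {Ω : Type} [Field Ω] [CharZero Ω]

theorem isPure_coe (p : ℕ) {k : ℕ} (x : algebraicClosure ℚ Ω) : IsPure p k (x : Ω) ↔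
    IsIntegral ℤ (x : Ω) ∧ ∀ σ : algebraicClosure ℚ Ω →+* ℂ, ‖σ x‖ ^ 2 = (p : ℝ) ^ k := by
  rw [IsPure, forall_conj (fun z => ‖z‖ ^ 2 = (p : ℝ) ^ k)]

theorem isPure_mul {k l : ℕ} {a b : Ω} (ha : IsPure p k a) (hb : IsPure p l b) :
    IsPure p (k + l) (a * b) := by
  obtain ⟨x, rfl⟩ := exists_lift (isAlgebraic_of_isIntegral ha.1)
  obtain ⟨y, rfl⟩ := exists_lift (isAlgebraic_of_isIntegral hb.1)
  have h := isPure_coe p (k := k + l) (x * y)
  push_cast at h
  rw [h]
  refine ⟨ha.1.mul hb.1, fun σ => ?_⟩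
  rw [map_mul, norm_mul, mul_pow, ((isPure_coe p x).1 ha).2 σ, ((isPure_coe p y).1 hb).2 σ, pow_add]

theorem isPure_natCast_pow (n : ℕ) : IsPure p (2 * n) ((p : Ω) ^ n) := by
  have h := isPure_coe (Ω := Ω) p (k := 2 * n) ((p : algebraicClosure ℚ Ω) ^ n)
  push_cast at h
  rw [h]
  refine ⟨?_, fun σ => ?_⟩
  · exact IsIntegral.pow (by
      have h1 : IsIntegral ℤ (algebraMap ℤ Ω (p : ℤ)) := isIntegral_algebraMap
      simpa using h1) n
  · rw [map_pow, map_natCast, norm_pow, Complex.norm_natCast, ← pow_mul, mul_comm]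

theorem isPure_pow {k : ℕ} {a : Ω} (ha : IsPure p k a) (n : ℕ) : IsPure p (k * n) (a ^ n) := by
  induction n with
  | zero => simpa using isPure_natCast_pow (p := p) (Ω := Ω) 0
  | succ n ih => rw [pow_succ, Nat.mul_succ]; exact isPure_mul ih ha

/-- Cup product with the class of an ample divisor. -/
theorem isPure_step (m i : ℕ) (a : Ω) (ha : IsPure p (m * i) a) :
    IsPure p (m * (i + 2)) ((p : Ω) ^ m * a) := by
  have h := isPure_mul (isPure_natCast_pow (p := p) (Ω := Ω) m) ha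
  have e : 2 * m + m * i = m * (i + 2) := by ring
  rwa [e] at h

/-- The theorem of Kronecker. -/
theorem pow_eq_one_of_pure {a : Ω} (ha : IsPure p 0 a) : ∃ e : ℕ, 0 < e ∧ a ^ e = 1 := by
  have hint : IsIntegral ℚ a := ha.1.tower_top
  let K : IntermediateField ℚ Ω := IntermediateField.adjoin ℚ {a}
  have hfd : FiniteDimensional ℚ K := IntermediateField.adjoin.finiteDimensional hint
  have hNF : NumberField K := ⟨⟩
  let x : K := IntermediateField.AdjoinSimple.gen ℚ a
  have hx : (x : Ω) = a := IntermediateField.AdjoinSimple.coe_gen ℚ a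
  have hxi : IsIntegral ℤ x := by
    have h1 : IsIntegral ℤ (K.val x) := by
      change IsIntegral ℤ (x : Ω)
      rw [hx]; exact ha.1
    exact (isIntegral_algHom_iff (K.val.restrictScalars ℤ) K.val.injective).1 h1
  have hmin : minpoly ℚ a = minpoly ℚ x := by
    rw [← hx]
    exact minpoly.algebraMap_eq (algebraMap K Ω).injective x
  have hnorm : ∀ φ : K →+* ℂ, ‖φ x‖ = 1 := by
    intro φ
    have h1 : aeval (φ x) (minpoly ℚ x) = 0 := by
      have h2 := Polynomial.aeval_algHom_apply (RingHom.toRatAlgHom φ) x (minpoly ℚ x)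
      rw [minpoly.aeval, map_zero] at h2
      exact h2
    rw [← hmin] at h1
    have h3 := ha.2 _ h1
    rw [pow_zero] at h3
    nlinarith [norm_nonneg (φ x), sq_nonneg (‖φ x‖ - 1)]
  obtain ⟨n, hn, h⟩ := NumberField.Embeddings.pow_eq_one_of_norm_eq_one K ℂ hxi hnorm
  refine ⟨n, hn, ?_⟩
  have h1 := congrArg (fun y : K => (y : Ω)) h
  simpa [hx] using h1

end

variable {p : ℕ} [Fact p.Prime] {Ω : Type} [Field Ω] [CharZero Ω]

/-- The weights add up. -/
theorem pure_weight {k l n s t : ℕ} {a b : Ω} (ha : IsPure p k a) (hb : IsPure p l b)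
    (h : a ^ s * b ^ t = (p : Ω) ^ n) : k * s + l * t = 2 * n := by
  obtain ⟨x, rfl⟩ := exists_lift (isAlgebraic_of_isIntegral ha.1)
  obtain ⟨y, rfl⟩ := exists_lift (isAlgebraic_of_isIntegral hb.1)
  obtain ⟨σ⟩ := exists_emb Ω
  have hxy : x ^ s * y ^ t = (p : algebraicClosure ℚ Ω) ^ n := by
    apply Subtype.ext
    push_cast
    exact h
  have h1 := congrArg (fun z => ‖σ z‖ ^ 2) hxy
  simp only [map_mul, map_pow, map_natCast, norm_mul, norm_pow, Complex.norm_natCast, mul_pow] at h1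
  have hx := ((isPure_coe p x).1 ha).2 σ
  have hy := ((isPure_coe p y).1 hb).2 σ
  have e1 : (‖σ x‖ ^ s) ^ 2 = (p : ℝ) ^ (k * s) := by
    rw [← pow_mul, mul_comm s 2, pow_mul, hx, ← pow_mul]
  have e2 : (‖σ y‖ ^ t) ^ 2 = (p : ℝ) ^ (l * t) := by
    rw [← pow_mul, mul_comm t 2, pow_mul, hy, ← pow_mul]
  have e3 : ((p : ℝ) ^ n) ^ 2 = (p : ℝ) ^ (2 * n) := by
    rw [← pow_mul, mul_comm n 2]
  rw [e1, e2, e3, ← pow_add] at h1
  have hp : (1 : ℝ) < p := by exact_mod_cast (Fact.out : p.Prime).one_lt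
  exact pow_right_injective₀ (by linarith) hp.ne' h1

omit [Fact p.Prime] in
/-- A root of a pure number. -/
theorem exists_pure_root [IsAlgClosed Ω] {m i : ℕ} (hi : 0 < i) {a : Ω}
    (ha : IsPure p (m * i) a) : ∃ w : Ω, w ^ i = a ∧ IsWeil p m w := by
  obtain ⟨w, hw⟩ := IsAlgClosed.exists_pow_nat_eq a hi
  refine ⟨w, hw, ?_⟩
  have hint : IsIntegral ℤ w := IsIntegral.of_pow hi (by rw [hw]; exact ha.1)
  obtain ⟨x, rfl⟩ := exists_lift (isAlgebraic_of_isIntegral hint)
  change IsPure p m (x : Ω)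
  rw [isPure_coe]
  refine ⟨hint, fun σ => ?_⟩
  have h1 : IsPure p (m * i) ((x ^ i : algebraicClosure ℚ Ω) : Ω) := by
    push_cast
    rw [hw]
    exact ha
  have h2 := ((isPure_coe p (x ^ i)).1 h1).2 σ
  rw [map_pow, norm_pow, ← pow_mul, mul_comm i 2, pow_mul, pow_mul] at h2
  exact (pow_left_inj₀ (by positivity) (by positivity) hi.ne').1 h2

omit [Fact p.Prime] in
theorem isPure_prod {m : ℕ} (l : List Ω) (h : ∀ w ∈ l, IsPure p m w) :
    IsPure p (m * l.length) l.prod := by
  induction l with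
  | nil => simpa using isPure_natCast_pow (p := p) (Ω := Ω) 0
  | cons w l ih =>
    rw [List.prod_cons, List.length_cons, Nat.mul_succ, add_comm]
    exact isPure_mul (h w List.mem_cons_self) (ih fun y hy => h y (List.mem_cons_of_mem _ hy))

/-- The weights in a product of a class on `X` and eigenvectors on an abelian variety. -/
theorem weight_of_relation [IsAlgClosed Ω] {m : ℕ} (hm : 0 < m) (i r s s' : ℕ) (a : Ω)
    (A : AbVar p Ω) (U : List (Ω × A.H)) (hs : 0 < s) (_ : 0 < s')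
    (hss : m * s = A.m * s') (ha : IsPure p (m * i) a) (hU : ∀ u ∈ U, A.F u.2 = u.1 • u.2)
    (hU0 : ∀ u ∈ U, u.2 ≠ 0)
    (h : a ^ s * (U.map Prod.fst).prod ^ s' = (p : Ω) ^ (m * s * r)) : i + U.length = 2 * r := by
  have h1 : IsPure p (A.m * U.length) (U.map Prod.fst).prod := by
    have h2 := isPure_prod (p := p) (m := A.m) (U.map Prod.fst) (by
      intro w hw
      obtain ⟨u, hu, rfl⟩ := List.mem_map.1 hw
      exact isWeil_of_eigen A (hU0 u hu) (hU u hu))
    rwa [List.length_map] at h2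
  have h3 := pure_weight ha h1 h
  have h4 : (m * s) * (i + U.length) = (m * s) * (2 * r) := by
    calc (m * s) * (i + U.length) = m * i * s + (m * s) * U.length := by ring
      _ = m * i * s + A.m * U.length * s' := by rw [hss]; ring
      _ = 2 * (m * s * r) := h3
      _ = _ := by ring
  exact Nat.eq_of_mul_eq_mul_left (Nat.mul_pos hm hs) h4

/-- Weil numbers which together with `a` give a power of `p`. -/
theorem exists_complement [IsAlgClosed Ω] {m i t : ℕ} (ht : 0 < t) {a : Ω}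
    (ha : IsPure p (m * i) a) : ∃ (w : List Ω) (e : ℕ), 0 < e ∧ w.length = i ∧
      (∀ x ∈ w, IsWeil p (m * t) x) ∧ (a ^ t * w.prod) ^ e = ((p : Ω) ^ (m * t * i)) ^ e := by
  have hp : (p : Ω) ≠ 0 := Nat.cast_ne_zero.2 (Fact.out : p.Prime).ne_zero
  rcases Nat.eq_zero_or_pos i with rfl | hi
  · rw [mul_zero] at ha
    obtain ⟨e, he, h⟩ := pow_eq_one_of_pure ha
    refine ⟨[], e, he, rfl, by simp, ?_⟩
    rw [List.prod_nil, mul_one, mul_zero, pow_zero, one_pow, ← pow_mul, mul_comm, pow_mul, h,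
      one_pow]
  · obtain ⟨w, hw, hwW⟩ := exists_pure_root hi ha
    have hwt : IsWeil p (m * t) (w ^ t) := hwW.pow ht
    have hw0 : w ^ t ≠ 0 := by
      intro h0
      have h1 := hwt.2 0 (by rw [h0, minpoly.zero]; simp)
      rw [norm_zero, zero_pow two_ne_zero] at h1
      have : (0 : ℝ) < (p : ℝ) ^ (m * t) := by
        have := (Fact.out : p.Prime).pos
        positivity
      exact this.ne h1
    refine ⟨List.replicate i ((p : Ω) ^ (m * t) / w ^ t), 1, one_pos, List.length_replicate, ?_, ?_⟩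
    · intro x hx
      rw [List.eq_of_mem_replicate hx]
      exact hwt.isIsotypic.isWeil hwt.conj_root
    · rw [pow_one, pow_one, List.prod_replicate, div_pow, ← hw, ← pow_mul, ← pow_mul, ← pow_mul,
        mul_comm i t, mul_div_cancel₀]
      rw [pow_mul]
      exact pow_ne_zero _ hw0

omit [Fact p.Prime] in
/-- A pure number is, up to a root of unity, a product of powers of Weil numbers. -/
theorem exists_factors [IsAlgClosed Ω] {m t j : ℕ} (ht : 0 < t) {a : Ω}
    (ha : IsPure p (m * t * j) a) : ∃ (w : List Ω) (e : ℕ), 0 < e ∧ w.length = j ∧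
      (∀ x ∈ w, IsWeil p m x) ∧ (w.prod ^ t) ^ e = a ^ e := by
  rcases Nat.eq_zero_or_pos j with rfl | hj
  · rw [mul_zero] at ha
    obtain ⟨e, he, h⟩ := pow_eq_one_of_pure ha
    exact ⟨[], e, he, rfl, by simp, by rw [List.prod_nil, one_pow, one_pow, h]⟩
  · rw [mul_assoc] at ha
    obtain ⟨w, hw, hwW⟩ := exists_pure_root (Nat.mul_pos ht hj) ha
    refine ⟨List.replicate j w, 1, one_pos, List.length_replicate, ?_, ?_⟩
    · intro x hx
      rw [List.eq_of_mem_replicate hx]
      exact hwW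
    · rw [pow_one, pow_one, List.prod_replicate, ← pow_mul, mul_comm j t, hw]

omit [Fact p.Prime] in
/-- The eigenvalue of an exterior product. -/
theorem isPure_ext {m m' i j : ℕ} {a b : Ω} (ha : IsPure p (m * i) a) (hb : IsPure p (m' * j) b) :
    IsPure p (m * m' * (i + j)) (a ^ m' * b ^ m) := by
  have h := isPure_mul (isPure_pow ha m') (isPure_pow hb m)
  have e : m * i * m' + m' * j * m = m * m' * (i + j) := by ring
  rwa [e] at h

/-- **A class is dominated by abelian varieties** if its products with classes of the same degree on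
abelian varieties belong to the system when they are Tate classes. -/
theorem dom_of_tate [IsAlgClosed Ω] {T : Cohomology p Ω} (Z : Cycles T) (X : T.V) {i : ℕ}
    (h : TateInDegree Z X i) {x : T.H X} (hx : x ∈ T.gr X i) {a : Ω} {k : ℕ}
    (hk : ((T.F X - a • LinearMap.id) ^ k : T.H X →ₗ[Ω] T.H X) x = 0)
    (ha : IsPure p (T.m X * i) a) : IsDom Z X x := by
  refine ⟨i, k, i, a, hx, hk, ha, fun t ht => ?_⟩
  have hm := T.m_pos X
  obtain ⟨w, e, he, hwl, hw, hrel⟩ := exists_complement ht ha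
  have hmt : 0 < T.m X * t := Nat.mul_pos hm ht
  obtain ⟨B, N, g, b, Y, R, hBm, -, hY, hR, hYw, hP, hN, hprod⟩ :=
    exists_basis_cover (p := p) hmt (W := {y : Ω | IsWeil p (T.m X * t) y})
      (fun y hy z hz => (hy : IsWeil p (T.m X * t) y).isIsotypic.isWeil hz) w
      (fun y hy => ⟨hw y hy, hw y hy⟩)
  have hYl : Y.length = i := by rw [← hwl, ← hYw, List.length_map]
  refine ⟨B, N, g, e, b, Y, R, hBm, hY, hR, hP, hN, he, by omega, by rw [hYw, hrel], ?_, ?_⟩
  · rw [hYw, hprod, hBm, ← pow_mul]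
  · refine h B x hx _ ?_ ?_
    · have h1 := wedge_mem (R := Ω) (Y.map Prod.snd)
      rw [List.length_map, hYl] at h1
      exact h1
    · refine ⟨t * e, e, k, Nat.mul_pos ht he, he, by rw [hBm]; ring, ?_⟩
      let K : ExteriorAlgebra Ω B.H →ₗ[Ω] ExteriorAlgebra Ω B.H :=
        (ExteriorAlgebra.map (B.F ^ e)).toLinearMap
      have h2 : K (wedge (Y.map Prod.snd)) = (w.prod ^ e) • wedge (R := Ω) (Y.map Prod.snd) := by
        rw [← hYw]
        exact map_pow_wedge_eigen B.F Y hY e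
      have h3 := gen_tmul_zero (T.F X ^ (t * e)) K h2 (gen_pow (T.F X) (t * e) hk)
      have h4 : a ^ (t * e) * w.prod ^ e = (p : Ω) ^ (T.m X * (t * e) * i) := by
        rw [pow_mul, ← mul_pow, hrel, ← pow_mul]
        congr 1
        ring
      rw [h4] at h3
      exact h3

end Pool.Agent.V8H77.VT
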