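import Pool.Agent.V8H77.VT.Pure
import Pool.Agent.V8H94.VT.Gen2
import Pool.Agent.V8H71.TC.Conv

/-!
# The strong Tate conjecture and the semisimplicity of Frobenius
-/

set_option autoImplicit false

namespace Pool.Agent.V8H77.VT

open Module Polynomial TensorProduct
open Pool.Agent.V8H94.CT Pool.Agent.V8H94.TC Pool.Agent.V8H94.VT

/-- A generalised eigenvector of `G` which is an eigenvector of a power of `G` is an eigenvector
of `G`. -/
theorem eigen_of_pow {Ω : Type} [Field Ω] [CharZero Ω] {E : Type} [AddCommGroup E] [Module Ω E]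
    (G : E →ₗ[Ω] E) {a b : Ω} (ha : a ≠ 0) {k s : ℕ} (hs : 0 < s) {x : E}
    (h : ((G - a • LinearMap.id) ^ k : E →ₗ[Ω] E) x = 0) (h' : (G ^ s) x = b • x) :
    G x = a • x := by
  by_cases hx : x = 0
  · rw [hx]; simp
  have hb : b = a ^ s := by
    refine (gen_unique (G ^ s) (gen_pow G s h) (k := k) (l := 1) ?_ hx).symm
    rw [pow_one, LinearMap.sub_apply, LinearMap.smul_apply, LinearMap.id_apply, h', sub_self]
  -- the polynomial `X ^ s - a ^ s` is the product of `X - a` and a polynomial prime to `X - a`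
  obtain ⟨Q, hQ⟩ := sub_dvd_pow_sub_pow (X : Polynomial Ω) (C a) s
  have hQa : Q.eval a ≠ 0 := by
    have h1 := congrArg (fun f => eval a (derivative f)) hQ
    simp only [derivative_sub, derivative_X_pow, derivative_mul, derivative_C,
      derivative_X, eval_sub, eval_mul, eval_pow, eval_X, eval_C, eval_add, sub_self, zero_mul,
      add_zero, ← C_pow, sub_zero, one_mul, map_natCast, eval_natCast] at h1
    rw [← h1]
    exact mul_ne_zero (Nat.cast_ne_zero.2 hs.ne') (pow_ne_zero _ ha)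
  have hcop : IsCoprime Q ((X - C a) ^ k) := by
    refine IsCoprime.pow_right ?_
    rw [isCoprime_comm]
    refine ((prime_X_sub_C a).irreducible.coprime_iff_not_dvd).2 ?_
    rw [dvd_iff_isRoot]
    exact hQa
  obtain ⟨u, w, huw⟩ := hcop
  have h2 : aeval G (X - C a) x = 0 := by
    have e : (X - C a : Polynomial Ω) =
        u * (X ^ s - C (a ^ s)) + (X - C a) * w * (X - C a) ^ k := by
      have e1 : (X ^ s - C (a ^ s) : Polynomial Ω) = (X - C a) * Q := by rw [C_pow, hQ]
      rw [e1]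
      linear_combination (C a - X) * huw
    rw [e, map_add, LinearMap.add_apply, map_mul, Module.End.mul_apply, map_mul,
      Module.End.mul_apply, aeval_sub_pow, h, map_zero, add_zero]
    have e2 : aeval G (X ^ s - C (a ^ s) : Polynomial Ω) x = 0 := by
      rw [map_sub, map_pow, aeval_X, aeval_C, LinearMap.sub_apply, h', hb]
      exact sub_self _
    rw [e2, map_zero]
  rw [map_sub, aeval_X, aeval_C, LinearMap.sub_apply] at h2
  exact sub_eq_zero.1 h2

section

variable {Ω : Type} [Field Ω]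

theorem tmul_cancel {E E' : Type} [AddCommGroup E] [Module Ω E] [AddCommGroup E'] [Module Ω E']
    {x : E} {w : E'} (hw : w ≠ 0) (h : x ⊗ₜ[Ω] w = 0) : x = 0 := by
  obtain ⟨φ, hφ⟩ : ∃ φ : Module.Dual Ω E', φ w ≠ 0 := by
    by_contra hne
    push Not at hne
    exact hw ((Module.forall_dual_apply_eq_zero_iff Ω w).1 hne)
  have h1 := congrArg (TensorProduct.rid Ω E ∘ₗ TensorProduct.map LinearMap.id φ :
    E ⊗[Ω] E' →ₗ[Ω] E) h
  rw [map_zero] at h1
  have h2 : φ w • x = 0 := h1
  exact (smul_eq_zero.1 h2).resolve_left hφ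

theorem wedge_ne_zero [CharZero Ω] {H : Type} [AddCommGroup H] [Module Ω H] {N : ℕ} (b : Basis (Fin N) Ω H)
    {Y R : List H} (h : (Y ++ R).Perm (List.ofFn b)) : wedge (R := Ω) Y ≠ 0 := by
  intro h0
  have h1 : wedge (R := Ω) (List.ofFn b) = 0 := by
    rcases wedge_perm (R := Ω) h with h2 | h2
    · rw [← h2, wedge_append, h0, zero_mul]
    · rw [wedge_append, h0, zero_mul, eq_comm, neg_eq_zero] at h2
      exact h2
  rw [ofFn_wedge] at h1
  have h3 := eq_zero_of_mul_top (H := H) (H' := H) b 1 (by rw [h1, map_zero, mul_zero])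
  exact one_ne_zero h3

end

variable {p : ℕ} [Fact p.Prime] {Ω : Type} [Field Ω] [CharZero Ω]

/-- Members of the system which are generalised Tate classes are Tate classes: over a finite
extension of the fields of definition Frobenius acts on them as `q ^ r`. -/
def CyclesAreTate {T : Cohomology p Ω} (Z : Cycles T) (X : T.V) : Prop :=
  ∀ (A : AbVar p Ω) (r : ℕ), ∀ t ∈ Z.C X A, IsGenTate T X A r t →
    ∃ s s' : ℕ, 0 < s ∧ 0 < s' ∧ T.m X * s = A.m * s' ∧
      mapTimes T X A A (T.F X ^ s) (pullLin A A (frobPow A s')) t =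
        (p : Ω) ^ (T.m X * s * r) • t

/-- The strong Tate conjecture implies that Frobenius is semisimple on generalised eigenvectors. -/
theorem eigen_of_strong [IsAlgClosed Ω] {T : Cohomology p Ω} {Z : Cycles T} {X : T.V}
    (hstr : ∀ A, StrongTate Z X A) (hcyc : CyclesAreTate Z X) {i : ℕ} {x : T.H X}
    {a : Ω} {k : ℕ} (hk : ((T.F X - a • LinearMap.id) ^ k : T.H X →ₗ[Ω] T.H X) x = 0)
    (ha : IsPure p (T.m X * i) a) : T.F X x = a • x := by
  have hp : (p : Ω) ≠ 0 := Nat.cast_ne_zero.2 (Fact.out : p.Prime).ne_zero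
  have hm := T.m_pos X
  obtain ⟨w, e, he, hwl, hw, hrel⟩ := exists_complement one_pos ha
  rw [mul_one] at hw hrel
  obtain ⟨B, N, g, b, Y, R, hBm, -, hY, hR, hYw, hP, hN, hprod⟩ :=
    exists_basis_cover (p := p) hm (W := {y : Ω | IsWeil p (T.m X) y})
      (fun y hy z hz => (hy : IsWeil p (T.m X) y).isIsotypic.isWeil hz) w
      (fun y hy => ⟨hw y hy, hw y hy⟩)
  have hwp : w.prod ≠ 0 := by
    intro h0
    rw [h0, zero_mul] at hprod
    exact pow_ne_zero _ (pow_ne_zero _ hp) hprod.symm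
  have hgen : IsGenTate T X B i
      (times T X B x (wedge (Y.map Prod.snd) : ExteriorAlgebra Ω B.H)) := by
    refine ⟨e, e, k, he, he, by rw [hBm], ?_⟩
    let K : ExteriorAlgebra Ω B.H →ₗ[Ω] ExteriorAlgebra Ω B.H :=
      (ExteriorAlgebra.map (B.F ^ e)).toLinearMap
    have h2 : K (wedge (Y.map Prod.snd)) = (w.prod ^ e) • wedge (R := Ω) (Y.map Prod.snd) := by
      rw [← hYw]
      exact map_pow_wedge_eigen B.F Y hY e
    have h3 := gen_tmul_zero (T.F X ^ e) K h2 (gen_pow (T.F X) e hk)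
    have h4 : a ^ e * w.prod ^ e = (p : Ω) ^ (T.m X * e * i) := by
      rw [← mul_pow]
      rw [pow_one] at hrel
      rw [hrel, ← pow_mul]
      congr 1
      ring
    rw [h4] at h3
    exact h3
  obtain ⟨s, s', hs, hs', hss, h⟩ := hcyc B i _ (hstr B i _ hgen) hgen
  let K : ExteriorAlgebra Ω B.H →ₗ[Ω] ExteriorAlgebra Ω B.H :=
    (ExteriorAlgebra.map (B.F ^ s')).toLinearMap
  have h2 : K (wedge (Y.map Prod.snd)) = (w.prod ^ s') • wedge (R := Ω) (Y.map Prod.snd) := by
    rw [← hYw]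
    exact map_pow_wedge_eigen B.F Y hY s'
  have h3 : ((T.F X ^ s) x) ⊗ₜ[Ω] K (wedge (Y.map Prod.snd)) =
      (p : Ω) ^ (T.m X * s * i) • (x ⊗ₜ[Ω] (wedge (R := Ω) (Y.map Prod.snd))) := h
  rw [h2, TensorProduct.tmul_smul, TensorProduct.smul_tmul', TensorProduct.smul_tmul',
    ← sub_eq_zero, ← TensorProduct.sub_tmul] at h3
  have h4 := tmul_cancel (wedge_ne_zero b hP) h3
  rw [sub_eq_zero] at h4
  have hc : w.prod ^ s' ≠ 0 := pow_ne_zero _ hwp
  have h5 : (T.F X ^ s) x = ((p : Ω) ^ (T.m X * s * i) / w.prod ^ s') • x := by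
    rw [div_eq_inv_mul, mul_smul, ← h4, smul_smul, inv_mul_cancel₀ hc, one_smul]
  have ha0 : a ≠ 0 := by
    intro h0
    rw [h0, pow_one, zero_mul, zero_pow he.ne'] at hrel
    exact pow_ne_zero _ (pow_ne_zero _ hp) hrel.symm
  exact eigen_of_pow (T.F X) ha0 hs hk h5

/-- **The strong Tate conjecture for all `X × A` implies that Frobenius is semisimple on the
cohomology of `X`.** -/
theorem semisimple_of_strong [IsAlgClosed Ω] {T : Cohomology p Ω} {Z : Cycles T} {X : T.V}
    (hstr : ∀ A, StrongTate Z X A) (hcyc : CyclesAreTate Z X) :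
    Submodule.span Ω {x : T.H X | ∃ a : Ω, T.F X x = a • x} = ⊤ := by
  rw [eq_top_iff, ← T.span_gr X]
  refine iSup_le fun i => ?_
  refine (le_span_gen (T.F X) (T.gr X i) (T.F_gr X i)).trans ?_
  refine Submodule.span_mono ?_
  rintro x ⟨hx, a, k, hk, y, hy, hy0, hya⟩
  exact ⟨a, eigen_of_strong hstr hcyc hk (T.pure X i y hy a hy0 hya)⟩

end Pool.Agent.V8H77.VT
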