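import Pool.Agent.V8H77.VT.Semi
import Pool.Agent.V8H94.TV.Conv

/-!
# The strong Tate conjecture is the Tate conjecture and semisimplicity
-/

set_option autoImplicit false

namespace Pool.Agent.V8H77.VT

open Module TensorProduct
open Pool.Agent.V8H94.CT Pool.Agent.V8H94.TC Pool.Agent.V8H94.TV

variable {p : ℕ} [Fact p.Prime] {Ω : Type} [Field Ω] [CharZero Ω]

/-- The class `t` on `X × A` is a Tate class of codimension `r` over a finite extension of the fields of
definition: `F t = q ^ r t`, where `F` is the Frobenius endomorphism of a field with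
`q = p ^ (m X * s)` elements. -/
def IsTate₂ (T : Varieties Ω) (X : T.V) (A : AbVar p Ω) (r : ℕ) (t : Coh₂ T X A) : Prop :=
  ∃ s s' : ℕ, 0 < s ∧ 0 < s' ∧ T.m X * s = A.m * s' ∧
    frob₂ T X A s s' t = (p : Ω) ^ (T.m X * s * r) • t

/-- The Tate conjecture for `X × A` in all codimensions. -/
def Tate₂ {T : Varieties Ω} (Z : Cycles p T) (X : T.V) (A : AbVar p Ω) : Prop :=
  ∀ (r : ℕ) (t : Coh₂ T X A), IsTate₂ T X A r t → t ∈ Z.C X A

/-- The Frobenius endomorphism of `X` is semisimple. -/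
def IsSemisimple {T : Varieties Ω} (X : T.V) : Prop :=
  Submodule.span Ω {x : T.H X | ∃ a : Ω, frob T X 1 x = a • x} = ⊤

/-- Generalised Tate classes which belong to the system are Tate classes. -/
def AreTate {T : Varieties Ω} (Z : Cycles p T) : Prop :=
  ∀ (X : T.V) (A : AbVar p Ω) (r : ℕ), ∀ t ∈ Z.C X A, IsGenTate T X A r t → IsTate₂ T X A r t

theorem IsTate₂.isGenTate {T : Varieties Ω} {X : T.V} {A : AbVar p Ω} {r : ℕ} {t : Coh₂ T X A}
    (h : IsTate₂ T X A r t) : IsGenTate T X A r t := by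
  obtain ⟨s, s', hs, hs', hss, h⟩ := h
  refine ⟨s, s', hs, hs', hss, 1, ?_⟩
  rw [pow_one, LinearMap.sub_apply, h]
  exact sub_self _

theorem isSemisimple_of_strong [IsAlgClosed Ω] {H : Cohomology p Ω} {Z : Cycles p H.T}
    (hcyc : AreTate Z) {X : H.T.V} (h : ∀ A, StrongTate Z X A) : IsSemisimple (T := H.T) X := by
  have h1 := semisimple_of_strong (Z := Z.toVT) (X := X)
    (fun A r t ht => h A r t ((isGenTate_iff H X A r t).2 ht))
    (fun A r t ht ht' => hcyc X A r t ht ((isGenTate_iff H X A r t).2 ht'))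
  have e : {x : H.T.H X | ∃ a : Ω, frob H.T X 1 x = a • x} =
      {x : H.T.H X | ∃ a : Ω, H.T.F X x = a • x} := by
    ext x
    simp only [V8H94.TV.frob, pow_one]
  rw [IsSemisimple, e]
  exact h1

theorem isTate_of_semisimple {T : Varieties Ω} {X : T.V} (hX : IsSemisimple (T := T) X)
    (A : AbVar p Ω) {r : ℕ} {t : Coh₂ T X A} (h : IsGenTate T X A r t) : IsTate₂ T X A r t := by
  obtain ⟨s, s', hs, hs', hss, k, hk⟩ := h
  refine ⟨s, s', hs, hs', hss, ?_⟩
  let K : ExteriorAlgebra Ω A.H →ₗ[Ω] ExteriorAlgebra Ω A.H :=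
    (ExteriorAlgebra.map (A.F ^ s')).toLinearMap
  let G : T.H X ⊗[Ω] ExteriorAlgebra Ω A.H →ₗ[Ω] T.H X ⊗[Ω] ExteriorAlgebra Ω A.H :=
    TensorProduct.map (T.F X ^ s) K
  let lam : Ω := (p : Ω) ^ (T.m X * s * r)
  let P : Set (T.H X ⊗[Ω] ExteriorAlgebra Ω A.H) :=
    {z | ∃ x ∈ {x : T.H X | ∃ a : Ω, frob T X 1 x = a • x},
      ∃ y ∈ {w : ExteriorAlgebra Ω A.H | ∃ U : List (Ω × A.H),
        (∀ u ∈ U, A.F u.2 = u.1 • u.2) ∧ w = wedge (U.map Prod.snd)}, z = x ⊗ₜ[Ω] y}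
  have hP : Submodule.span Ω P = ⊤ := V8H94.VT.span_tmul hX (V8H94.VT.span_wedge A)
  have heig : ∀ z ∈ P, ∃ μ : Ω, G z = μ • z := by
    rintro _ ⟨x, ⟨a, ha⟩, _, ⟨U, hU, rfl⟩, rfl⟩
    have ha' : T.F X x = a • x := by rwa [V8H94.TV.frob, pow_one] at ha
    refine ⟨a ^ s * (U.map Prod.fst).prod ^ s', ?_⟩
    have h1 : K (wedge (U.map Prod.snd)) =
        (U.map Prod.fst).prod ^ s' • wedge (R := Ω) (U.map Prod.snd) :=
      map_pow_wedge_eigen A.F U hU s'
    have h2 : (T.F X ^ s) x = a ^ s • x := pow_apply_eigen ha' s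
    change ((T.F X ^ s) x) ⊗ₜ[Ω] K (wedge (U.map Prod.snd)) = _
    rw [h1, h2, TensorProduct.tmul_smul, ← TensorProduct.smul_tmul', smul_smul, mul_comm]
  have h1 := V8H94.VT.mem_span_of_gen G P hP (fun z hz => by
    obtain ⟨μ, h⟩ := heig z hz
    refine ⟨μ, 1, ?_⟩
    rw [pow_one, LinearMap.sub_apply, h]
    exact sub_self _) lam k t hk
  have h2 : Submodule.span Ω {x | x ∈ P ∧ ∃ k : ℕ,
      ((G - lam • LinearMap.id) ^ k : T.H X ⊗[Ω] ExteriorAlgebra Ω A.H →ₗ[Ω] _) x = 0} ≤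
        LinearMap.ker (G - lam • LinearMap.id) := by
    refine Submodule.span_le.2 ?_
    rintro z ⟨hz, k, hk⟩
    obtain ⟨μ, hμ⟩ := heig z hz
    rw [SetLike.mem_coe, LinearMap.mem_ker, LinearMap.sub_apply, hμ]
    by_cases hz0 : z = 0
    · rw [hz0]; simp
    · have h3 : lam = μ := V8H94.VT.gen_unique G (k := k) (l := 1) hk (by
        rw [pow_one, LinearMap.sub_apply, hμ]
        exact sub_self _) hz0
      rw [h3]
      exact sub_self _
  have h3 : ∀ y : T.H X ⊗[Ω] ExteriorAlgebra Ω A.H,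
      y ∈ LinearMap.ker (G - lam • LinearMap.id) → G y = lam • y := by
    intro y hy
    rw [LinearMap.mem_ker, LinearMap.sub_apply] at hy
    exact sub_eq_zero.1 hy
  exact h3 t (h2 h1)

/-- **The strong Tate conjecture is the Tate conjecture and semisimplicity of Frobenius.** -/
theorem strong_iff [IsAlgClosed Ω] {H : Cohomology p Ω} {Z : Cycles p H.T}
    (hcyc : AreTate Z) (X : H.T.V) : (∀ A, StrongTate Z X A) ↔
      (∀ A, Tate₂ Z X A) ∧ IsSemisimple (T := H.T) X := by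
  constructor
  · intro h
    exact ⟨fun A r t ht => h A r t ht.isGenTate, isSemisimple_of_strong hcyc h⟩
  · rintro ⟨h1, h2⟩ A r t ht
    exact h1 A r t (isTate_of_semisimple h2 A ht)

end Pool.Agent.V8H77.VT
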